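import Pool.Agent.H9.HB1

namespace Pool.Agent.Results.MP_a6d20f_an.NoAccel
open Filter

/-- the scalar class `𝓕¹_{μ,L}` -/
def cls (μ L : ℝ) : Set (ℝ → ℝ) := {f | Differentiable ℝ f ∧ ∀ x y, x ≠ y →
  μ ≤ (deriv f x - deriv f y) / (x - y) ∧ (deriv f x - deriv f y) / (x - y) ≤ L}

/-- the heavy-ball iterate sequences on `f`, from arbitrary `x₀, x₁` -/
def orbits (γ β : ℝ) (f : ℝ → ℝ) : Set (ℕ → ℝ) :=
  {x | ∀ t, x (t + 2) = (1 + β) * x (t + 1) - β * x t - γ * deriv f (x (t + 1))}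

/-- the worst-case asymptotic rate on `𝓕¹_{μ,L}` -/
noncomputable def rate (γ β μ L : ℝ) : EReal :=
  sSup {r | ∃ f ∈ cls μ L, ∃ s : ℝ, (∀ y, f s ≤ f y) ∧ ∃ x ∈ orbits γ β f,
    r = limsup (fun t : ℕ => ((|x t - s| ^ (1 / (t : ℝ)) : ℝ) : EReal)) atTop}

/-- the tuning `(γ(μ,L), β(μ,L))` accelerates over the scalar class -/
def Accelerates (γ β : ℝ → ℝ → ℝ) : Prop := ∃ c κ : ℝ, 0 < c ∧ 0 < κ ∧ κ < 1 ∧
  ∀ μ L : ℝ, 0 < μ → μ < L → μ / L ≤ κ →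
    rate (γ μ L) (β μ L) μ L ≤ ((1 - c * √(μ / L) : ℝ) : EReal)

theorem result (γ β : ℝ → ℝ → ℝ) : ¬Accelerates γ β := by
  rintro ⟨c, κ, h0, h1, h2, h⟩
  obtain ⟨k, a1, a2, a3, a4⟩ := H9.HB.main h0 h1 h2
  refine a4 (γ (k ^ 2) 1) (β (k ^ 2) 1) fun g e x e' => ?_
  obtain ⟨f, b1, rfl, s, b2, b3⟩ := H9.HB.prim (pow_pos a1 2) e
  have : limsup (fun t : ℕ => ((|x t - s| ^ (1 / (t : ℝ)) : ℝ) : EReal)) atTop ≤ _ :=
    (sSup_le_iff.1 (h _ 1 (pow_pos a1 2) (a2.trans_lt h2) (by simpa using a2))) _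
      ⟨f, ⟨b1, e⟩, s, b3, x, e', rfl⟩
  rw [div_one, Real.sqrt_sq a1.le] at this
  refine ⟨s, b2, ?_⟩
  filter_upwards [eventually_lt_of_limsup_lt (this.trans_lt (EReal.coe_lt_coe_iff.2
    (show _ < 1 - c * k / 2 by nlinarith [mul_pos h0 a1]))), eventually_ne_atTop 0] with t b4 b5
  have := pow_le_pow_left₀ (by positivity) (EReal.coe_lt_coe_iff.1 b4).le t
  rwa [one_div, Real.rpow_inv_natCast_pow (abs_nonneg _) b5] at this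

end Pool.Agent.Results.MP_a6d20f_an.NoAccel
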